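import Pool.Agent.ASD.Stmts4
import Pool.Agent.ASD.Stmts3
import Pool.Agent.Helper10_ASO.LAC
import Pool.Agent.Helper47_PP.Osi

/-!
# Row TFN of the squad ASD: the numbers `nI`
-/

open scoped BigOperators

set_option linter.unusedSectionVars false

noncomputable section

namespace Pool.Agent.PP.SD.H41

open Pool.Agent.Helper51_AWC Pool.Agent.Helper79_WRA Pool.Agent.PP Pool.Agent.PP.KF
open Pool.Agent.PP.K9 Pool.Agent.PP.K9.H97 Pool.Agent.PP.H75 Pool.Agent.PP.T3 Pool.Agent.PP.SO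

attribute [local instance] Ideal.Quotient.field

/-! ### elements of groups -/

section grp

variable {G : Type} [Group G]

theorem pm_mul {ℓ n m : ℕ} (hPE : PE ℓ n m G) {z s : G} (hz : El ℓ z) (hs : Reg ℓ s)
    (hc : Commute z s) : (z * s) ^ m = z := by
  rw [hc.mul_pow, (hPE.el z hz).1, hPE.rg s hs, mul_one]

theorem pm_dec [Finite G] {ℓ n m : ℕ} (hℓ : ℓ.Prime) (hPE : PE ℓ n m G) (x : G) :
    El ℓ (x ^ m) ∧ Reg ℓ ((x ^ m)⁻¹ * x) := by
  obtain ⟨v, w, hvw, hc, hv, hw⟩ := H47O.decomp hℓ x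
  have h1 : x ^ m = v := by
    rw [← hvw]
    exact pm_mul hPE hv hw hc
  rw [h1]
  refine ⟨hv, ?_⟩
  rw [← hvw, inv_mul_cancel_left]
  exact hw

theorem conj_iff' (y a b : G) : y⁻¹ * a * y = b ↔ a = y * b * y⁻¹ := by
  constructor
  · rintro rfl
    group
  · rintro rfl
    group

theorem g_aux {a y u : G} (h : y⁻¹ * a⁻¹ * y = a⁻¹ * u) : y * a * y⁻¹ = y * u * y⁻¹ * a := by
  have h1 : y⁻¹ * a * y = u⁻¹ * a := by
    have h2 := congrArg (fun g => g⁻¹) h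
    simpa [mul_assoc] using h2
  calc y * a * y⁻¹ = y * u * (u⁻¹ * a) * y⁻¹ := by group
    _ = y * u * (y⁻¹ * a * y) * y⁻¹ := by rw [h1]
    _ = y * u * y⁻¹ * a := by group

theorem conj_pw (y x : G) (m : ℕ) : (y * x * y⁻¹) ^ m = y * x ^ m * y⁻¹ := conj_pow

theorem conj_pw' (y x : G) (m : ℕ) : (y⁻¹ * x * y) ^ m = y⁻¹ * x ^ m * y := by
  have h := conj_pow (i := m) (a := y⁻¹) (b := x)
  rw [inv_inv] at h
  exact h

end grp

section bk

variable {V₀ G : Type} [CommGroup V₀] [Finite V₀] [Group G] [Fintype G]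
  {M : Ideal (integralClosure ℤ ℂ)} [M.IsMaximal]

omit [Finite V₀] [Fintype G] in
theorem mem_C {B : Bk (FF M) V₀ G} {W : Subgroup V₀} {x : G} :
    x ∈ B.C W ↔ ∀ v ∈ W, B.i v * x = x * B.i v := by
  unfold Bk.C
  rw [Subgroup.mem_centralizer_iff]
  constructor
  · intro h v hv
    exact h _ ⟨v, hv, rfl⟩
  · rintro h _ ⟨v, hv, rfl⟩
    exact h v hv

omit [Finite V₀] [Fintype G] in
theorem C_anti (B : Bk (FF M) V₀ G) {W W' : Subgroup V₀} (h : W ≤ W') : B.C W' ≤ B.C W :=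
  fun _ hx => mem_C.2 fun v hv => mem_C.1 hx v (h hv)

omit [Finite V₀] [Fintype G] in
/-- the elements of `V₀` which commute with `x` -/
theorem i_mem_C (B : Bk (FF M) V₀ G) (W : Subgroup V₀) (v : V₀) : B.i v ∈ B.C W :=
  mem_C.2 fun u _ => by rw [← map_mul, ← map_mul, mul_comm]

/-- the weighted sum -/
def Nw (B : Bk (FF M) V₀ G) (κ : V₀) (F : G × G → ℂ) : ℂ :=
  (Nat.card (B.C ⊤) : ℂ)⁻¹ * ∑ w : G × G, F w * bh B ⊤ ((B.i κ)⁻¹ * SO.kap w.1 w.2)

omit [Finite V₀] in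
theorem Nw_add (B : Bk (FF M) V₀ G) (κ : V₀) (F F' : G × G → ℂ) :
    Nw B κ (fun w => F w + F' w) = Nw B κ F + Nw B κ F' := by
  unfold Nw
  rw [← mul_add, ← Finset.sum_add_distrib]
  congr 1
  refine Finset.sum_congr rfl fun w _ => ?_
  ring

omit [Finite V₀] in
theorem Nw_sum (B : Bk (FF M) V₀ G) (κ : V₀) {ι : Type} (s : Finset ι) (F : ι → G × G → ℂ) :
    Nw B κ (fun w => ∑ j ∈ s, F j w) = ∑ j ∈ s, Nw B κ (F j) := by
  unfold Nw
  rw [← Finset.mul_sum, Finset.sum_comm]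
  congr 1
  refine Finset.sum_congr rfl fun w _ => ?_
  rw [Finset.sum_mul]

open Classical in
/-- sums over `t` -/
theorem tsum_eq (f : G → ℂ) (k : G) (κf : G × G → G) (F : G × G → ℂ) :
    ∑ᶠ t : G, f t * ∑ w : G × G, (if κf w = k * t then F w else 0) =
      ∑ w : G × G, F w * f (k⁻¹ * κf w) := by
  rw [finsum_eq_sum_of_fintype]
  simp only [Finset.mul_sum]
  rw [Finset.sum_comm]
  refine Finset.sum_congr rfl fun w _ => ?_
  rw [Finset.sum_eq_single (k⁻¹ * κf w)]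
  · rw [if_pos (mul_inv_cancel_left k (κf w)).symm, mul_comm]
  · intro t _ ht
    rw [if_neg, mul_zero]
    intro h
    apply ht
    rw [h, inv_mul_cancel_left]
  · intro h
    exact absurd (Finset.mem_univ _) h

theorem ncard_ite (P : G × G → Prop) [DecidablePred P] :
    (({w | P w}.ncard : ℕ) : ℂ) = ∑ w : G × G, if P w then (1 : ℂ) else 0 := by
  classical
  rw [Set.ncard_eq_toFinset_card', Finset.sum_boole]
  congr 2
  ext w
  simp

open Classical in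
/-- a weighted number as a weighted sum -/
theorem num_eq (B : Bk (FF M) V₀ G) (κ : V₀) (P : G × G → Prop) :
    (Nat.card (B.C ⊤) : ℂ)⁻¹ * ∑ᶠ t : G, bh B ⊤ t *
      {w : G × G | SO.kap w.1 w.2 = B.i κ * t ∧ P w}.ncard = Nw B κ (fun w => if P w then 1 else 0) := by
  unfold Nw
  congr 1
  rw [← tsum_eq (bh B ⊤) (B.i κ) (fun w => SO.kap w.1 w.2)]
  refine finsum_congr fun t => ?_
  congr 1
  rw [ncard_ite]
  refine Finset.sum_congr rfl fun w _ => ?_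
  by_cases h1 : SO.kap w.1 w.2 = B.i κ * t
  · by_cases h2 : P w
    · rw [if_pos ⟨h1, h2⟩, if_pos h1, if_pos h2]
    · rw [if_neg (fun h => h2 h.2), if_pos h1, if_neg h2]
  · rw [if_neg (fun h => h1 h.1), if_neg h1]

open Classical in
theorem fmem {X : Type} [Fintype X] (S : Set X) (f : X → ℂ) :
    ∑ᶠ w ∈ S, f w = ∑ w, if w ∈ S then f w else 0 := by
  rw [finsum_mem_def, finsum_eq_sum_of_fintype]
  refine Finset.sum_congr rfl fun w _ => ?_
  rw [Set.indicator_apply]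

open Classical in
/-- a weighted sum is zero if all the fibres are zero -/
theorem kill (hkc : HkcStmt) (fib : FibStmt) {ℓ : ℕ} [Fact ℓ.Prime]
    (hM : (ℓ : integralClosure ℤ ℂ) ∈ M) (hℓ : ℓ ≠ 2) {E₀ : Subgroup (MulAut V₀)}
    (hF : Fq ℓ V₀ E₀) {B : Bk (FF M) V₀ G} (hB : Sb ℓ M E₀ B) {n m : ℕ} (hPE : PE ℓ n m G)
    (A : Subgroup V₀) (κ : V₀) (hA : A ⊔ Subgroup.zpowers κ = ⊤) (Φ : G → G → ℂ)
    (inv1 : ∀ z y, ∀ v ∈ B.C A, Φ (v * z * v⁻¹) (y * v⁻¹) = Φ z y)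
    (inv2 : ∀ z y, ∀ v ∈ B.C A, Φ z (v * y) = Φ z y)
    (h : ∀ z y, Φ z y ≠ 0 → El ℓ z → z ∈ B.C A → y * z * y⁻¹ ∈ B.C A →
      (∀ q ∈ A, ∃ k : ℤ, y * B.i q * y⁻¹ = B.i q * (y * z * y⁻¹) ^ k) ∧
      ∀ σ ∈ E₀, ∀ t ∈ Tg B.i.range B.g, (∀ v, t * B.i v * t⁻¹ = B.i (σ v)) →
        ∀ g ∈ B.C A, ∀ g' ∈ B.C A, ∀ v, y = g * t * g' → y * z * y⁻¹ = g * B.i v * g⁻¹ → False) :
    Nw B κ (fun w => if w.1 ∈ B.C A then Φ (w.1 ^ m) w.2 else 0) = 0 := by
  have hp : ℓ.Prime := Fact.out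
  have e1 := hkc ℓ M hM hℓ V₀ G E₀ hF B hB n m hPE A κ Φ inv1 inv2
  rw [hA] at e1
  have e2 : Nw B κ (fun w => if w.1 ∈ B.C A then Φ (w.1 ^ m) w.2 else 0) =
      (Nat.card (B.C ⊤) : ℂ)⁻¹ * ∑ᶠ t : G, bh B ⊤ t *
        ∑ᶠ w ∈ {w : G × G | SO.kap w.1 w.2 = B.i κ * t ∧ w.1 ∈ B.C A}, Φ (w.1 ^ m) w.2 := by
    unfold Nw
    congr 1
    rw [← tsum_eq (bh B ⊤) (B.i κ) (fun w => SO.kap w.1 w.2)]
    refine finsum_congr fun t => ?_
    congr 1
    rw [fmem]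
    refine Finset.sum_congr rfl fun w _ => ?_
    by_cases h1 : SO.kap w.1 w.2 = B.i κ * t
    · by_cases h2 : w.1 ∈ B.C A
      · rw [if_pos h1, if_pos h2, if_pos ⟨h1, h2⟩]
      · rw [if_pos h1, if_neg h2, if_neg (fun h => h2 h.2)]
    · rw [if_neg h1, if_neg (fun h => h1 h.1)]
  rw [e2, e1]
  -- all the terms are zero
  have hz : ∀ χ ∈ Ch B A, SO.cv (fc B A κ) χ *
      ∑ᶠ w ∈ {w : G × G | w.1 ∈ B.C A ∧ w.2 * w.1 * w.2⁻¹ ∈ B.C A},
        Φ (w.1 ^ m) w.2 * (χ (w.2 * w.1 * w.2⁻¹) * χ w.1⁻¹) = 0 := by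
    intro χ hχ
    have key : ∀ y z, Φ z y * ∑ x : G, (if x ^ m = z ∧ x ∈ B.C A ∧ y * x * y⁻¹ ∈ B.C A then
        χ (y * x * y⁻¹) * χ x⁻¹ else 0) = 0 := by
      intro y z
      by_cases hΦ : Φ z y = 0
      · rw [hΦ, zero_mul]
      by_cases hex : ∃ x : G, x ^ m = z ∧ x ∈ B.C A ∧ y * x * y⁻¹ ∈ B.C A
      · obtain ⟨x₀, hx1, hx2, hx3⟩ := hex
        have hzEl : El ℓ z := by
          rw [← hx1]
          exact (pm_dec hp hPE x₀).1
        have hzC : z ∈ B.C A := by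
          rw [← hx1]
          exact (B.C A).pow_mem hx2 m
        have hzF : y * z * y⁻¹ ∈ B.C A := by
          rw [← hx1, ← conj_pw]
          exact (B.C A).pow_mem hx3 m
        obtain ⟨h1, h2⟩ := h z y hΦ hzEl hzC hzF
        by_contra hne
        have hsum : ∑ x : G, (if x ^ m = z ∧ x ∈ B.C A ∧ y * x * y⁻¹ ∈ B.C A then
            χ (y * x * y⁻¹) * χ x⁻¹ else 0) ≠ 0 := fun h0 => hne (by rw [h0, mul_zero])
        have hFel : El ℓ (y * z * y⁻¹) := by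
          obtain ⟨k, hk⟩ := hzEl
          exact ⟨k, by rw [conj_pw, hk]; group⟩
        have heq : ∑ᶠ x ∈ {x : G | x ∈ B.C A ∧ x * (y * z * y⁻¹) = (y * z * y⁻¹) * x ∧ Reg ℓ x},
            χ ((y * z * y⁻¹) * x) * χ (y⁻¹ * ((y * z * y⁻¹) * x)⁻¹ * y) =
            ∑ x : G, (if x ^ m = z ∧ x ∈ B.C A ∧ y * x * y⁻¹ ∈ B.C A then
              χ (y * x * y⁻¹) * χ x⁻¹ else 0) := by
          rw [fmem]
          refine Eq.trans ?_
            (Equiv.sum_comp ((Equiv.mulLeft (y⁻¹ * (y * z * y⁻¹))).trans (Equiv.mulRight y)) _)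
          refine Finset.sum_congr rfl fun x _ => ?_
          set u : G := y * z * y⁻¹ with hu
          have hx₀ : ((Equiv.mulLeft (y⁻¹ * u)).trans (Equiv.mulRight y)) x = y⁻¹ * (u * x) * y := by
            show y⁻¹ * u * x * y = _
            group
          rw [hx₀]
          have a1 : y * (y⁻¹ * (u * x) * y) * y⁻¹ = u * x := by group
          have a2 : (y⁻¹ * (u * x) * y)⁻¹ = y⁻¹ * (u * x)⁻¹ * y := by group
          have a3 : (y⁻¹ * (u * x) * y) ^ m = y⁻¹ * (u * x) ^ m * y := conj_pw' _ _ _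
          have a4 : y⁻¹ * (u * x) ^ m * y = z ↔ (u * x) ^ m = u := conj_iff' _ _ _
          simp only [a1, a2, a3, a4, Set.mem_ofPred_eq]
          by_cases hL : x ∈ B.C A ∧ x * u = u * x ∧ Reg ℓ x
          · rw [if_pos hL]
            have b1 : (u * x) ^ m = u := pm_mul hPE hFel hL.2.2 hL.2.1.symm
            have b2 : u * x ∈ B.C A := (B.C A).mul_mem hzF hL.1
            by_cases b3 : y⁻¹ * (u * x) * y ∈ B.C A
            · rw [if_pos ⟨b1, b3, b2⟩]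
            · rw [if_neg (fun h3 => b3 h3.2.1)]
              have b4 : y⁻¹ * (u * x)⁻¹ * y ∉ B.C A := by
                intro h3
                apply b3
                have := (B.C A).inv_mem h3
                rw [← a2, inv_inv] at this
                exact this
              rw [hχ.1 _ b4, mul_zero]
          · rw [if_neg hL, if_neg]
            rintro ⟨c1, c2, c3⟩
            apply hL
            have c4 := pm_dec hp hPE (u * x)
            rw [c1] at c4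
            have c5 : u⁻¹ * (u * x) = x := by group
            have c6 : x ∈ B.C A := by
              rw [← c5]
              exact (B.C A).mul_mem ((B.C A).inv_mem hzF) c3
            refine ⟨c6, ?_, ?_⟩
            · have c7 : Commute (u * x) u := by
                have c8 : Commute (u * x) ((u * x) ^ m) := (Commute.refl _).pow_right m
                rw [c1] at c8
                exact c8
              have c8 := c7.eq
              rw [mul_assoc] at c8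
              exact mul_left_cancel c8
            · rw [c5] at c4
              exact c4.2
        obtain ⟨σ, hσ, t, ht, htv, g, hg, g', hg', v, hy, hzv⟩ :=
          fib ℓ M hM hℓ V₀ G E₀ hF B hB A A χ hχ χ hχ y (y * z * y⁻¹) hFel hzF
            (by
              have : y⁻¹ * (y * z * y⁻¹) * y = z := by group
              rw [this]
              exact hzC)
            (by
              intro q hq
              obtain ⟨k, hk⟩ := h1 q hq
              exact ⟨q, hq, k, hk⟩)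
            (by
              intro q hq
              obtain ⟨k, hk⟩ := h1 q hq
              refine ⟨q, hq, -k, ?_⟩
              rw [hk, mul_assoc, ← zpow_add, add_neg_cancel, zpow_zero, mul_one])
            (by
              rw [heq]
              exact hsum)
        exact h2 σ hσ t ht htv g hg g' hg' v hy hzv
      · rw [Finset.sum_eq_zero, mul_zero]
        intro x _
        rw [if_neg]
        intro h3
        exact hex ⟨x, h3⟩
    have hsum : ∑ᶠ w ∈ {w : G × G | w.1 ∈ B.C A ∧ w.2 * w.1 * w.2⁻¹ ∈ B.C A},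
        Φ (w.1 ^ m) w.2 * (χ (w.2 * w.1 * w.2⁻¹) * χ w.1⁻¹) = 0 := by
      rw [fmem, Fintype.sum_prod_type, Finset.sum_comm]
      refine Finset.sum_eq_zero fun y _ => ?_
      have e3 : ∑ x : G, (if x ∈ B.C A ∧ y * x * y⁻¹ ∈ B.C A then
          Φ (x ^ m) y * (χ (y * x * y⁻¹) * χ x⁻¹) else 0) =
          ∑ z : G, Φ z y * ∑ x : G, (if x ^ m = z ∧ x ∈ B.C A ∧ y * x * y⁻¹ ∈ B.C A then
            χ (y * x * y⁻¹) * χ x⁻¹ else 0) := by
        simp only [Finset.mul_sum]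
        rw [Finset.sum_comm]
        refine Finset.sum_congr rfl fun x _ => ?_
        rw [Finset.sum_eq_single (x ^ m)]
        · by_cases h3 : x ∈ B.C A ∧ y * x * y⁻¹ ∈ B.C A
          · rw [if_pos h3, if_pos ⟨rfl, h3⟩]
          · rw [if_neg h3, if_neg (fun h4 => h3 h4.2), mul_zero]
        · intro z _ hz
          rw [if_neg (fun h4 => hz h4.1.symm), mul_zero]
        · intro h3
          exact absurd (Finset.mem_univ _) h3
      refine Eq.trans (Finset.sum_congr rfl fun x _ => ?_)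
        (e3.trans (Finset.sum_eq_zero fun z _ => key y z))
      by_cases h3 : x ∈ B.C A ∧ y * x * y⁻¹ ∈ B.C A
      · rw [if_pos (show (x, y) ∈ {w : G × G | w.1 ∈ B.C A ∧ w.2 * w.1 * w.2⁻¹ ∈ B.C A} from h3),
          if_pos h3]
      · rw [if_neg (show ¬ (x, y) ∈ {w : G × G | w.1 ∈ B.C A ∧ w.2 * w.1 * w.2⁻¹ ∈ B.C A} from h3),
          if_neg h3]
    rw [hsum, mul_zero]
  rw [finsum_mem_congr rfl hz, finsum_mem_zero, mul_zero]

/-! ### the condition for the generators -/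

theorem gen_k {B : Bk (FF M) V₀ G} {A : Subgroup V₀} {y u : G} (hu : u ∈ B.C A) (S : Set V₀)
    (hSA : A = Subgroup.closure S) (hS : ∀ q ∈ S, ∃ k : ℤ, y * B.i q * y⁻¹ = B.i q * u ^ k) :
    ∀ q ∈ A, ∃ k : ℤ, y * B.i q * y⁻¹ = B.i q * u ^ k := by
  intro q hq
  rw [hSA] at hq
  have hcl : ∀ x, x ∈ Subgroup.closure S → x ∈ A := fun x hx => by rw [hSA]; exact hx
  have hcm : ∀ x ∈ Subgroup.closure S, ∀ k : ℤ, u ^ k * B.i x = B.i x * u ^ k := by
    intro x hx k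
    have h1 : Commute (B.i x) u := mem_C.1 hu x (hcl x hx)
    exact (h1.zpow_right k).symm.eq
  induction hq using Subgroup.closure_induction with
  | mem x hx => exact hS x hx
  | one => exact ⟨0, by rw [map_one, zpow_zero]; group⟩
  | mul a b ha hb iha ihb =>
    obtain ⟨k, hk⟩ := iha
    obtain ⟨l, hl⟩ := ihb
    refine ⟨k + l, ?_⟩
    have e1 : y * B.i (a * b) * y⁻¹ = (y * B.i a * y⁻¹) * (y * B.i b * y⁻¹) := by
      rw [map_mul]
      group
    rw [e1, hk, hl, map_mul, zpow_add]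
    have e2 : B.i a * u ^ k * (B.i b * u ^ l) = B.i a * (u ^ k * B.i b) * u ^ l := by
      simp only [mul_assoc]
    rw [e2, hcm b hb k]
    simp only [mul_assoc]
  | inv a ha iha =>
    obtain ⟨k, hk⟩ := iha
    refine ⟨-k, ?_⟩
    have e1 : y * B.i a⁻¹ * y⁻¹ = (y * B.i a * y⁻¹)⁻¹ := by
      rw [map_inv]
      group
    rw [e1, hk, mul_inv_rev, map_inv, zpow_neg]
    have h2 := hcm a ha k
    have h3 : (u ^ k)⁻¹ * (B.i a)⁻¹ = (B.i a * u ^ k)⁻¹ := by rw [mul_inv_rev]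
    rw [h3, ← h2, mul_inv_rev]

/-- `y` commutes with `i(A)` -/
theorem mem_C_gen {B : Bk (FF M) V₀ G} (w : V₀) {x : G} :
    x ∈ B.C (Subgroup.zpowers w) ↔ B.i w * x = x * B.i w := by
  constructor
  · intro h
    exact mem_C.1 h w (Subgroup.mem_zpowers w)
  · intro h
    rw [mem_C]
    intro v hv
    obtain ⟨k, rfl⟩ := Subgroup.mem_zpowers_iff.1 hv
    rw [map_zpow]
    have h1 : Commute (B.i w) x := h
    exact (h1.zpow_left k).eq

theorem mem_C_sup {B : Bk (FF M) V₀ G} (S T : Subgroup V₀) {x : G} :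
    x ∈ B.C (S ⊔ T) ↔ x ∈ B.C S ∧ x ∈ B.C T := by
  constructor
  · intro h
    exact ⟨C_anti B le_sup_left h, C_anti B le_sup_right h⟩
  · rintro ⟨h1, h2⟩
    rw [mem_C]
    intro v hv
    obtain ⟨a, ha, b, hb, rfl⟩ := Subgroup.mem_sup.1 hv
    rw [map_mul, mul_assoc, mem_C.1 h2 b hb, ← mul_assoc, mem_C.1 h1 a ha, mul_assoc]

/-! ### the part with trivial stabilisers -/

instance cjF : Fintype (H10L.Cj G) := (inferInstance : Fintype G)

open Classical in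
theorem free_part (cnd : CndStmt) {ℓ : ℕ} [Fact ℓ.Prime]
    (hM : (ℓ : integralClosure ℤ ℂ) ∈ M) (hℓ : ℓ ≠ 2) {E₀ : Subgroup (MulAut V₀)}
    (hF : Fq ℓ V₀ E₀) {B : Bk (FF M) V₀ G} (hB : Sd ℓ M E₀ B) (κ c : V₀) (hc : c ≠ 1)
    (P : G × G → Prop)
    (hP : ∀ z ∈ B.C ⊤, ∀ w : G × G, P (z * w.1 * z⁻¹, z * w.2 * z⁻¹) ↔ P w)
    (hfree : ∀ w : G × G, P w → ∀ v : V₀, B.i v * w.1 = w.1 * B.i v →
      B.i v * w.2 = w.2 * B.i v → v = 1) :
    Nw B κ (fun w => if P w then 1 else 0) ∈ RM M := by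
  have hcd : (Nat.card (B.C ⊤) : ℂ) ≠ 0 := by exact_mod_cast Nat.card_pos.ne'
  unfold Nw
  rw [Finset.mul_sum]
  have key : ∑ w : H10L.Cj G × H10L.Cj G, (fun w : G × G => (Nat.card (B.C ⊤) : ℂ)⁻¹ *
      ((if P w then 1 else 0) * bh B ⊤ ((B.i κ)⁻¹ * SO.kap w.1 w.2))) w ∈ RM M := by
    refine H10L.osum (Γ := B.C ⊤) (X := H10L.Cj G × H10L.Cj G) (RM M) _ ?_ ?_
    · rintro ⟨z, hz⟩ ⟨(x : G), (y : G)⟩
      show (Nat.card (B.C ⊤) : ℂ)⁻¹ * ((if P (H10L.cjf (G := G) z x, H10L.cjf (G := G) z y) then (1 : ℂ)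
        else 0) * bh B ⊤ ((B.i κ)⁻¹ * SO.kap (H10L.cjf (G := G) z x) (H10L.cjf (G := G) z y))) =
        (Nat.card (B.C ⊤) : ℂ)⁻¹ * ((if P (x, y) then (1 : ℂ) else 0) *
          bh B ⊤ ((B.i κ)⁻¹ * SO.kap (G := G) x y))
      have h1 : P (H10L.cjf (G := G) z x, H10L.cjf (G := G) z y) ↔ P (x, y) := hP z hz (x, y)
      have h2 : (B.i κ)⁻¹ * SO.kap (H10L.cjf (G := G) z x) (H10L.cjf (G := G) z y) =
          z * ((B.i κ)⁻¹ * SO.kap (G := G) x y) * z⁻¹ := by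
        have h3 : B.i κ * z = z * B.i κ := mem_C.1 hz κ (Subgroup.mem_top κ)
        have h4 : (B.i κ)⁻¹ * z = z * (B.i κ)⁻¹ := by
          rw [inv_mul_eq_iff_eq_mul, ← mul_assoc, h3]
          group
        have h5 : SO.kap (H10L.cjf (G := G) z x) (H10L.cjf (G := G) z y) =
            z * SO.kap (G := G) x y * z⁻¹ := by
          unfold SO.kap H10L.cjf
          group
        rw [h5, ← mul_assoc, ← mul_assoc, h4]
        group
      rw [h2, H10L.bh_conj B ⊤ z hz]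
      simp only [h1]
    · rintro ⟨(x : G), (y : G)⟩
      show (Nat.card (MulAction.orbit (B.C ⊤) ((x, y) : H10L.Cj G × H10L.Cj G)) : ℂ) *
        ((Nat.card (B.C ⊤) : ℂ)⁻¹ * ((if P (x, y) then (1 : ℂ) else 0) *
          bh B ⊤ ((B.i κ)⁻¹ * SO.kap (G := G) x y))) ∈ RM M
      by_cases hPx : P ((x, y) : G × G)
      swap
      · rw [if_neg hPx, zero_mul, mul_zero, mul_zero]
        exact (RM M).zero_mem
      set t : G := (B.i κ)⁻¹ * SO.kap (G := G) x y with ht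
      by_cases htC : t ∈ B.C ⊤
      swap
      · rw [H10L.bh_supp B ⊤ t htC, mul_zero, mul_zero, mul_zero]
        exact (RM M).zero_mem
      rw [if_pos hPx, one_mul]
      -- orbit and stabiliser
      let St : Subgroup G := B.C ⊤ ⊓ (Cu (G := G) x ⊓ Cu (G := G) y)
      have h1 := MulAction.card_orbit_mul_card_stabilizer_eq_card_group (B.C ⊤)
        ((x, y) : H10L.Cj G × H10L.Cj G)
      have h2 : Fintype.card (MulAction.stabilizer (B.C ⊤) ((x, y) : H10L.Cj G × H10L.Cj G)) =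
          Nat.card St := by
        rw [← Nat.card_eq_fintype_card]
        refine Nat.card_congr ⟨fun z => ⟨z.1.1, z.1.2, ?_, ?_⟩, fun z => ⟨⟨z.1, z.2.1⟩, ?_⟩, ?_, ?_⟩
        · have h4 : (z.1 : G) * x * (z.1 : G)⁻¹ = x := congrArg Prod.fst z.2
          show (z.1 : G) ∈ Cu x
          rw [Subgroup.mem_centralizer_singleton_iff]
          exact mul_inv_eq_iff_eq_mul.1 h4
        · have h4 : (z.1 : G) * y * (z.1 : G)⁻¹ = y := congrArg Prod.snd z.2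
          show (z.1 : G) ∈ Cu y
          rw [Subgroup.mem_centralizer_singleton_iff]
          exact mul_inv_eq_iff_eq_mul.1 h4
        · have h3 : z.1 ∈ Cu x := z.2.2.1
          have h4 : z.1 ∈ Cu y := z.2.2.2
          rw [Subgroup.mem_centralizer_singleton_iff] at h3 h4
          have h5 : z.1 * x * z.1⁻¹ = x := mul_inv_eq_iff_eq_mul.2 h3
          have h6 : z.1 * y * z.1⁻¹ = y := mul_inv_eq_iff_eq_mul.2 h4
          exact Prod.ext h5 h6
        · intro z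
          rfl
        · intro z
          rfl
      rw [h2] at h1
      have h3 : (Nat.card (MulAction.orbit (B.C ⊤) ((x, y) : H10L.Cj G × H10L.Cj G)) : ℂ) *
          Nat.card St = Nat.card (B.C ⊤) := by
        rw [Nat.card_eq_fintype_card (α := MulAction.orbit (B.C ⊤) ((x, y) : H10L.Cj G × H10L.Cj G)),
          Nat.card_eq_fintype_card (α := B.C ⊤), ← h1]
        push_cast
        ring
      have h4 : (Nat.card St : ℂ) ≠ 0 := by
        have h5 : 0 < Nat.card St := Nat.card_pos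
        exact_mod_cast h5.ne'
      have h5 : (Nat.card (MulAction.orbit (B.C ⊤) ((x, y) : H10L.Cj G × H10L.Cj G)) : ℂ) *
          ((Nat.card (B.C ⊤) : ℂ)⁻¹ * bh B ⊤ t) = bh B ⊤ t / Nat.card St := by
        rw [← h3]
        have h6 : (Nat.card (MulAction.orbit (B.C ⊤) ((x, y) : H10L.Cj G × H10L.Cj G)) : ℂ) ≠ 0 := by
          intro h
          rw [h, zero_mul] at h3
          exact hcd h3.symm
        field_simp
      rw [h5]
      -- elements of the stabiliser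
      have hStx : ∀ z ∈ St, z * x = x * z ∧ z * y = y * z := fun z hz =>
        ⟨Subgroup.mem_centralizer_singleton_iff.1 hz.2.1,
          Subgroup.mem_centralizer_singleton_iff.1 hz.2.2⟩
      have hStt : ∀ z ∈ St, z * t = t * z := by
        intro z hz
        obtain ⟨a1, a2⟩ := hStx z hz
        have a3 : Commute z x := a1
        have a4 : Commute z y := a2
        have a5 : Commute z (B.i κ) := (mem_C.1 hz.1 κ (Subgroup.mem_top κ)).symm
        have a6 : Commute z t := by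
          rw [ht]
          unfold SO.kap
          exact (a5.inv_right).mul_right (((a3.mul_right a4).mul_right a3.inv_right).mul_right
            a4.inv_right)
        exact a6.eq
      have hVt : ∀ v : V₀, B.i v * t = t * B.i v := fun v => mem_C.1 htC v (Subgroup.mem_top v)
      -- the embedding of `V₀ × St`
      let f : V₀ × St →* (B.C ⊤ ⊓ Cu t : Subgroup G) :=
        { toFun := fun q => ⟨B.i q.1 * q.2, (B.C ⊤).mul_mem (i_mem_C B ⊤ q.1) q.2.2.1, by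
            show B.i q.1 * q.2 ∈ Cu t
            rw [Subgroup.mem_centralizer_singleton_iff, mul_assoc, hStt _ q.2.2, ← mul_assoc, hVt,
              mul_assoc]⟩
          map_one' := by
            apply Subtype.ext
            show B.i 1 * ((1 : St) : G) = 1
            rw [map_one, one_mul]
            rfl
          map_mul' := fun q q' => by
            apply Subtype.ext
            show B.i (q.1 * q'.1) * ((q.2 * q'.2 : St) : G) =
              B.i q.1 * (q.2 : G) * (B.i q'.1 * (q'.2 : G))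
            have a1 : B.i q'.1 * (q.2 : G) = (q.2 : G) * B.i q'.1 :=
              mem_C.1 q.2.2.1 q'.1 (Subgroup.mem_top _)
            rw [map_mul, Subgroup.coe_mul]
            calc B.i q.1 * B.i q'.1 * ((q.2 : G) * (q'.2 : G)) =
                B.i q.1 * (B.i q'.1 * (q.2 : G)) * (q'.2 : G) := by simp only [mul_assoc]
              _ = B.i q.1 * (q.2 : G) * (B.i q'.1 * (q'.2 : G)) := by
                  rw [a1]
                  simp only [mul_assoc] }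
      have hinj : Function.Injective f := by
        rw [injective_iff_map_eq_one]
        rintro ⟨v, z⟩ h
        have a1 : B.i v * (z : G) = 1 := congrArg Subtype.val h
        have a2 : (z : G) = B.i v⁻¹ := by
          rw [map_inv]
          exact (inv_eq_of_mul_eq_one_right a1).symm
        obtain ⟨a3, a4⟩ := hStx z z.2
        rw [a2] at a3 a4
        have a5 : v⁻¹ = 1 := hfree (x, y) hPx v⁻¹ a3 a4
        have a6 : v = 1 := inv_eq_one.1 a5
        rw [a6, inv_one, map_one] at a2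
        exact Prod.ext a6 (Subtype.ext a2)
      have hdvd := Subgroup.card_dvd_of_injective f hinj
      rw [Nat.card_prod, hF.cd] at hdvd
      obtain ⟨k, hk⟩ := hdvd
      have hcn := cnd ℓ M hM hℓ V₀ G E₀ hF B hB c hc true t htC
      have hkE : (kE E₀ c : ℂ) ≠ 0 := by
        have : 0 < kE E₀ c := Nat.card_pos
        exact_mod_cast this.ne'
      have hfr : frm c true = ⊤ := rfl
      have hwt : wtD E₀ B c true t = ((kE E₀ c : ℂ) * Nat.card (B.C ⊤))⁻¹ * bh B ⊤ t := rfl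
      rw [hfr, hwt, Subgroup.card_top, hF.cd] at hcn
      have hmul := (RM M).mul_mem ((RM M).mul_mem (natCast_mem (RM M) (kE E₀ c)) hcn)
        (natCast_mem (RM M) k)
      refine Eq.subst (motive := fun r => r ∈ RM M) ?_ hmul
      have hcu : (Nat.card (B.C ⊤ ⊓ Cu t : Subgroup G) : ℂ) ≠ 0 := by
        have h6 : 0 < Nat.card (B.C ⊤ ⊓ Cu t : Subgroup G) := Nat.card_pos
        exact_mod_cast h6.ne'
      have hk2 : (Nat.card (B.C ⊤ ⊓ Cu t : Subgroup G) : ℂ) = (ℓ : ℂ) ^ 2 * Nat.card St * k := by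
        rw [hk]
        push_cast
        ring
      have hℓ0 : (ℓ : ℂ) ≠ 0 := by exact_mod_cast (Fact.out : ℓ.Prime).ne_zero
      have hk0 : (k : ℂ) ≠ 0 := by
        intro h
        rw [h, mul_zero] at hk2
        exact hcu hk2
      rw [hk2]
      push_cast
      field_simp
  exact key

/-! ### the condition of `nI` -/

/-- the condition of `nI` -/
def PI (ℓ : ℕ) (B : Bk (FF M) V₀ G) (m : ℕ) (w : V₀) (i₀ : ℕ) (x : G × G) : Prop :=
  B.i w * x.1 = x.1 * B.i w ∧ x.2⁻¹ * (B.i w)⁻¹ * x.2 = (B.i w)⁻¹ * (x.1 ^ m) ^ i₀ ∧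
    (x.1 ^ m) ^ i₀ ≠ 1 ∧ (x.1 ^ m) ^ ℓ = 1

open Classical in
theorem nI_eq (ℓ : ℕ) (B : Bk (FF M) V₀ G) (m : ℕ) (κ w : V₀) (i₀ : ℕ) :
    nI ℓ B m κ w i₀ = Nw B κ (fun x => if PI ℓ B m w i₀ x then 1 else 0) := by
  rw [← num_eq]
  rfl

/-- powers of an element of order dividing `ℓ` -/
theorem pow_mod' {H : Type} [Group H] {ℓ : ℕ} {z : H} (hz : z ^ ℓ = 1) {a b : ℕ}
    (h : a ≡ b [MOD ℓ]) : z ^ a = z ^ b :=
  (pow_eq_pow_iff_modEq).2 (h.of_dvd (orderOf_dvd_of_pow_eq_one hz))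

theorem PI_pow {ℓ : ℕ} (hℓ : ℓ.Prime) (B : Bk (FF M) V₀ G) (m : ℕ) (w : V₀) {j i₀ i₁ : ℕ}
    (hj : ¬ ℓ ∣ j) (hi : i₁ ≡ j * i₀ [MOD ℓ]) (x : G × G) (h : PI ℓ B m w i₀ x) :
    PI ℓ B m (w ^ j) i₁ x := by
  obtain ⟨h1, h2, h3, h4⟩ := h
  have hc : Commute (B.i w) x.1 := h1
  have hcz : Commute (B.i w) (x.1 ^ m) := hc.pow_right m
  have hz : (x.1 ^ m) ^ i₁ = ((x.1 ^ m) ^ i₀) ^ j := by
    rw [pow_mod' h4 hi, mul_comm, pow_mul]
  refine ⟨?_, ?_, ?_, h4⟩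
  · rw [map_pow]
    exact (hc.pow_left j).eq
  · have e1 : x.2⁻¹ * (B.i (w ^ j))⁻¹ * x.2 = (x.2⁻¹ * (B.i w)⁻¹ * x.2) ^ j := by
      rw [conj_pw', map_pow, inv_pow]
    rw [e1, h2, ((hcz.inv_left).pow_right i₀).mul_pow, hz, map_pow, inv_pow]
  · rw [hz]
    intro h5
    apply h3
    have h6 : ((x.1 ^ m) ^ i₀) ^ ℓ = 1 := by
      rw [← pow_mul, mul_comm, pow_mul, h4, one_pow]
    have h7 : Nat.Coprime ℓ j := (Nat.Prime.coprime_iff_not_dvd hℓ).2 hj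
    have h8 := orderOf_dvd_of_pow_eq_one h5
    have h9 := orderOf_dvd_of_pow_eq_one h6
    have h10 : orderOf ((x.1 ^ m) ^ i₀) ∣ 1 := by
      rw [← h7]
      exact Nat.dvd_gcd h9 h8
    exact orderOf_eq_one_iff.1 (Nat.dvd_one.1 h10)

theorem PI_iff {ℓ : ℕ} (hℓ : ℓ.Prime) (B : Bk (FF M) V₀ G) (m : ℕ) {w : V₀} (hw : w ^ ℓ = 1)
    {j i₀ i₁ : ℕ} (hj : ¬ ℓ ∣ j) (hi : i₁ ≡ j * i₀ [MOD ℓ]) (x : G × G) :
    PI ℓ B m (w ^ j) i₁ x ↔ PI ℓ B m w i₀ x := by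
  refine ⟨fun h => ?_, PI_pow hℓ B m w hj hi x⟩
  have h7 : Nat.Coprime j ℓ := ((Nat.Prime.coprime_iff_not_dvd hℓ).2 hj).symm
  obtain ⟨j', -, hj'⟩ := Nat.exists_mul_mod_eq_one_of_coprime h7 hℓ.one_lt
  have h8 : j * j' ≡ 1 [MOD ℓ] := by
    show j * j' % ℓ = 1 % ℓ
    rw [hj', Nat.mod_eq_of_lt hℓ.one_lt]
  have h9 : ¬ ℓ ∣ j' := by
    intro h10
    have h11 : j * j' ≡ 0 [MOD ℓ] := (Nat.modEq_zero_iff_dvd).2 (Dvd.dvd.mul_left h10 j)
    have h12 : (1 : ℕ) ≡ 0 [MOD ℓ] := h8.symm.trans h11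
    have h13 : 1 % ℓ = 0 % ℓ := h12
    rw [Nat.mod_eq_of_lt hℓ.one_lt, Nat.zero_mod] at h13
    exact one_ne_zero h13
  have h10 : i₀ ≡ j' * i₁ [MOD ℓ] := by
    have h11 : j' * i₁ ≡ j' * (j * i₀) [MOD ℓ] := Nat.ModEq.mul_left j' hi
    have h12 : j' * (j * i₀) = (j * j') * i₀ := by ring
    rw [h12] at h11
    have h13 : (j * j') * i₀ ≡ 1 * i₀ [MOD ℓ] := Nat.ModEq.mul_right i₀ h8
    rw [one_mul] at h13
    exact (h11.trans h13).symm
  have h11 := PI_pow hℓ B m (w ^ j) h9 h10 x h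
  have h12 : (w ^ j) ^ j' = w := by
    rw [← pow_mul, pow_mod' hw h8, pow_one]
  rw [h12] at h11
  exact h11

open Classical in
theorem nI_pow {ℓ : ℕ} (hℓ : ℓ.Prime) (B : Bk (FF M) V₀ G) (m : ℕ) (κ : V₀) {w : V₀}
    (hw : w ^ ℓ = 1) {j i₀ i₁ : ℕ} (hj : ¬ ℓ ∣ j) (hi : i₁ ≡ j * i₀ [MOD ℓ]) :
    nI ℓ B m κ (w ^ j) i₁ = nI ℓ B m κ w i₀ := by
  rw [nI_eq, nI_eq]
  congr 1
  funext x
  simp only [PI_iff hℓ B m hw hj hi x]

/-! ### subgroups of `V₀` -/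

theorem zp_card {ℓ : ℕ} (hℓ : ℓ.Prime) {w : V₀} (hw : w ^ ℓ = 1) (h1 : w ≠ 1) :
    Nat.card (Subgroup.zpowers w) = ℓ := by
  have := Fact.mk hℓ
  rw [Nat.card_zpowers, orderOf_eq_prime hw h1]

theorem sup_top (rwd : RwdStmt) {ℓ : ℕ} [Fact ℓ.Prime] {E₀ : Subgroup (MulAut V₀)}
    (hF : Fq ℓ V₀ E₀) {S : Subgroup V₀} (hS : Nat.card S = ℓ) {v : V₀} (hv : v ∉ S) :
    S ⊔ Subgroup.zpowers v = ⊤ := by
  obtain ⟨-, -, -, -, r5⟩ := rwd ℓ V₀ E₀ hF
  have hne : S ⊔ Subgroup.zpowers v ≠ ⊥ := by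
    intro h
    have h1 : S = ⊥ := le_bot_iff.1 (h ▸ le_sup_left)
    rw [h1, Subgroup.card_bot] at hS
    exact (Fact.out : ℓ.Prime).one_lt.ne hS
  rcases r5 _ hne with h | h
  · exact h
  · exfalso
    have h1 : S = S ⊔ Subgroup.zpowers v :=
      Subgroup.eq_of_le_of_card_ge le_sup_left (by rw [h, hS])
    apply hv
    rw [h1]
    exact (le_sup_right : Subgroup.zpowers v ≤ _) (Subgroup.mem_zpowers v)

/-! ### the three claims -/

open Classical in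
theorem nI_zero (hkc : HkcStmt) (fib : FibStmt) (rwd : RwdStmt) {ℓ : ℕ} [Fact ℓ.Prime]
    (hM : (ℓ : integralClosure ℤ ℂ) ∈ M) (hℓ : ℓ ≠ 2) {E₀ : Subgroup (MulAut V₀)}
    (hF : Fq ℓ V₀ E₀) {B : Bk (FF M) V₀ G} (hB : Sb ℓ M E₀ B) {n m : ℕ} (hPE : PE ℓ n m G)
    {κ w : V₀} (hw1 : w ≠ 1) (hκ : κ ∉ Subgroup.zpowers w) (htriv : ∀ σ ∈ E₀, σ w = w) (i₀ : ℕ) :
    nI ℓ B m κ w i₀ = 0 := by
  have hp : ℓ.Prime := Fact.out
  have hAκ : Subgroup.zpowers w ⊔ Subgroup.zpowers κ = ⊤ :=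
    sup_top rwd hF (zp_card hp (hF.ex w) hw1) hκ
  have h0 := kill hkc fib hM hℓ hF hB hPE (Subgroup.zpowers w) κ hAκ
    (fun z y => if y⁻¹ * (B.i w)⁻¹ * y = (B.i w)⁻¹ * z ^ i₀ ∧ z ^ i₀ ≠ 1 ∧ z ^ ℓ = 1 then 1 else 0)
    (by
      intro z y v hv
      have hc : B.i w * v = v * B.i w := mem_C_gen w |>.1 hv
      have hc' : v⁻¹ * (B.i w)⁻¹ * v = (B.i w)⁻¹ := by
        have : Commute (B.i w) v := hc
        rw [mul_assoc, this.inv_left.eq]
        group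
      have e1 : ((y * v⁻¹)⁻¹ * (B.i w)⁻¹ * (y * v⁻¹) = (B.i w)⁻¹ * (v * z * v⁻¹) ^ i₀) ↔
          (y⁻¹ * (B.i w)⁻¹ * y = (B.i w)⁻¹ * z ^ i₀) := by
        rw [conj_pw]
        have e2 : (y * v⁻¹)⁻¹ * (B.i w)⁻¹ * (y * v⁻¹) = v * (y⁻¹ * (B.i w)⁻¹ * y) * v⁻¹ := by group
        have e3 : (B.i w)⁻¹ * (v * z ^ i₀ * v⁻¹) = v * ((B.i w)⁻¹ * z ^ i₀) * v⁻¹ := by
          have : Commute (B.i w) v := hc
          have h5 := this.inv_left.eq
          calc (B.i w)⁻¹ * (v * z ^ i₀ * v⁻¹) = ((B.i w)⁻¹ * v) * z ^ i₀ * v⁻¹ := by group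
            _ = v * ((B.i w)⁻¹ * z ^ i₀) * v⁻¹ := by rw [h5]; group
        rw [e2, e3]
        exact ⟨fun h => mul_left_cancel (mul_right_cancel h), fun h => by rw [h]⟩
      have e4 : (v * z * v⁻¹) ^ i₀ = 1 ↔ z ^ i₀ = 1 := by
        rw [conj_pw]
        constructor
        · intro h
          have : z ^ i₀ = v⁻¹ * (v * z ^ i₀ * v⁻¹) * v := by group
          rw [this, h]
          group
        · intro h
          rw [h]
          group
      have e5 : (v * z * v⁻¹) ^ ℓ = 1 ↔ z ^ ℓ = 1 := by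
        rw [conj_pw]
        constructor
        · intro h
          have : z ^ ℓ = v⁻¹ * (v * z ^ ℓ * v⁻¹) * v := by group
          rw [this, h]
          group
        · intro h
          rw [h]
          group
      simp only [e1, e4, e5, ne_eq])
    (by
      intro z y v hv
      have hc : Commute (B.i w) v := mem_C_gen w |>.1 hv
      have e1 : (v * y)⁻¹ * (B.i w)⁻¹ * (v * y) = y⁻¹ * (B.i w)⁻¹ * y := by
        have h5 := hc.inv_left.eq
        calc (v * y)⁻¹ * (B.i w)⁻¹ * (v * y) = y⁻¹ * v⁻¹ * ((B.i w)⁻¹ * v) * y := by group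
          _ = y⁻¹ * (B.i w)⁻¹ * y := by rw [h5]; group
      simp only [e1])
    (by
      intro z y hΦ hzEl hzC hzF
      have hcond : y⁻¹ * (B.i w)⁻¹ * y = (B.i w)⁻¹ * z ^ i₀ ∧ z ^ i₀ ≠ 1 ∧ z ^ ℓ = 1 := by
        by_contra hc
        apply hΦ
        simp only [if_neg hc]
      obtain ⟨c1, c2, c3⟩ := hcond
      constructor
      · refine gen_k hzF {w} (Subgroup.zpowers_eq_closure w) ?_
        intro q hq
        rw [Set.mem_singleton_iff.1 hq]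
        refine ⟨i₀, ?_⟩
        have hcm : Commute (B.i w) (y * z * y⁻¹) := (mem_C_gen w).1 hzF
        rw [zpow_natCast]
        have e1 : y * B.i w * y⁻¹ = (y * z * y⁻¹) ^ i₀ * B.i w := by
          rw [conj_pw]
          exact g_aux c1
        rw [e1]
        exact ((hcm.pow_right i₀).eq).symm
      · intro σ hσ t ht htv g hg g' hg' v hy hzv
        apply c2
        have ht' : t ∈ B.C (Subgroup.zpowers w) := by
          rw [mem_C_gen]
          have h5 := htv w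
          rw [htriv σ hσ] at h5
          exact (mul_inv_eq_iff_eq_mul.1 h5).symm
        have hyC : y ∈ B.C (Subgroup.zpowers w) := by
          rw [hy]
          exact (B.C _).mul_mem ((B.C _).mul_mem hg ht') hg'
        have h6 : Commute (B.i w) y := (mem_C_gen w).1 hyC
        rw [mul_assoc, h6.inv_left.eq, inv_mul_cancel_left] at c1
        exact mul_left_cancel (c1.symm.trans (mul_one _).symm))
  rw [nI_eq]
  refine Eq.trans ?_ h0
  congr 1
  funext x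
  have e1 : x.1 ∈ B.C (Subgroup.zpowers w) ↔ B.i w * x.1 = x.1 * B.i w := mem_C_gen w
  unfold PI
  by_cases h1 : B.i w * x.1 = x.1 * B.i w
  · rw [if_pos (e1.2 h1)]
    simp only [h1, true_and]
  · rw [if_neg (fun h => h1 (e1.1 h)), if_neg (fun h => h1 h.1)]

omit [Finite V₀] [Fintype G] in
theorem inv_a {a v y z : G} (hc : Commute a v) (k : ℕ) :
    ((y * v⁻¹)⁻¹ * a⁻¹ * (y * v⁻¹) = a⁻¹ * (v * z * v⁻¹) ^ k) ↔ (y⁻¹ * a⁻¹ * y = a⁻¹ * z ^ k) := by
  rw [conj_pw]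
  have e2 : (y * v⁻¹)⁻¹ * a⁻¹ * (y * v⁻¹) = v * (y⁻¹ * a⁻¹ * y) * v⁻¹ := by group
  have e3 : a⁻¹ * (v * z ^ k * v⁻¹) = v * (a⁻¹ * z ^ k) * v⁻¹ := by
    have h5 := hc.inv_left.eq
    calc a⁻¹ * (v * z ^ k * v⁻¹) = (a⁻¹ * v) * z ^ k * v⁻¹ := by group
      _ = v * (a⁻¹ * z ^ k) * v⁻¹ := by rw [h5]; group
  rw [e2, e3]
  exact ⟨fun h => mul_left_cancel (mul_right_cancel h), fun h => by rw [h]⟩

omit [Finite V₀] [Fintype G] in
theorem inv_b (v z : G) (k : ℕ) : (v * z * v⁻¹) ^ k = 1 ↔ z ^ k = 1 := by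
  rw [conj_pw]
  constructor
  · intro h
    have : z ^ k = v⁻¹ * (v * z ^ k * v⁻¹) * v := by group
    rw [this, h]
    group
  · intro h
    rw [h]
    group

omit [Finite V₀] [Fintype G] in
theorem inv_c {a v : G} (y : G) (hc : Commute a v) :
    (v * y)⁻¹ * a⁻¹ * (v * y) = y⁻¹ * a⁻¹ * y := by
  have h5 := hc.inv_left.eq
  calc (v * y)⁻¹ * a⁻¹ * (v * y) = y⁻¹ * v⁻¹ * (a⁻¹ * v) * y := by group
    _ = y⁻¹ * a⁻¹ * y := by rw [h5]; group

open Classical in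
/-- the elements with a given stabiliser of order `ℓ` -/
theorem line_part (hkc : HkcStmt) (fib : FibStmt) (w2b : W2bStmt) (rwd : RwdStmt) {ℓ : ℕ}
    [Fact ℓ.Prime] (hM : (ℓ : integralClosure ℤ ℂ) ∈ M) (hℓ : ℓ ≠ 2) {E₀ : Subgroup (MulAut V₀)}
    (hF : Fq ℓ V₀ E₀) {B : Bk (FF M) V₀ G} (hB : Sd ℓ M E₀ B) {n m : ℕ} (hPE : PE ℓ n m G)
    (hn : 1 < n) {κ w : V₀} {S : Subgroup V₀} (hS : Nat.card S = ℓ) (hwS : w ∉ S) {i₀ : ℕ}
    (hi : i₀ < n) :
    Nw B κ (fun x => if PI ℓ B m w i₀ x ∧ x.1 ∈ B.C S ∧ x.2 ∈ B.C S then 1 else 0) ∈ RM M := by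
  obtain ⟨-, -, r3, -, -⟩ := rwd ℓ V₀ E₀ hF
  have hsup : S ⊔ Subgroup.zpowers w = ⊤ := sup_top rwd hF hS hwS
  have hn0 : 0 < n := by omega
  -- the numbers `HK`
  have hHK : ∀ L : Set (SO.SS n V₀), aL κ L = ⊤ → Nw B κ (fun x => if ∀ s ∈ L,
      B.i (κ ^ (s.2.1 : ℕ) * s.2.2.1) * x.1 = x.1 * B.i (κ ^ (s.2.1 : ℕ) * s.2.2.1) ∧
        x.2⁻¹ * B.i (κ ^ (s.2.1 : ℕ) * s.2.2.1) * x.2 =
          B.i (κ ^ (s.2.1 : ℕ) * s.2.2.1) * (x.1 ^ m) ^ (s.1 : ℕ) then 1 else 0) ∈ RM M := by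
    intro L hL
    have h1 := w2b ℓ M hM hℓ V₀ G E₀ hF B hB n m hPE κ L (by rw [hL]; exact r3)
    have h2 : ux B.U (aL κ L) κ = 1 := by
      rw [hL]
      unfold ux
      rw [if_pos (Subgroup.mem_top κ)]
    rw [h2, one_mul] at h1
    have h3 : HK B m κ L ∈ RM M := by
      rw [h1]
      push_cast
      exact natCast_mem (RM M) _
    unfold HK at h3
    rw [hL, top_sup_eq, num_eq] at h3
    exact h3
  have hkw : κ ^ 1 * (κ * w)⁻¹ = w⁻¹ := by
    rw [pow_one, mul_inv, mul_inv_cancel_left]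
  let L1 : Set (SO.SS n V₀) := {s | s = (⟨i₀, hi⟩, ⟨1, hn⟩, (κ * w)⁻¹, 1) ∨
    ∃ v ∈ S, s = (⟨0, hn0⟩, ⟨0, hn0⟩, v, 1)}
  let L2 : Set (SO.SS n V₀) := {s | s = (⟨0, hn0⟩, ⟨1, hn⟩, (κ * w)⁻¹, 1) ∨ s ∈ L1}
  have hL1 : aL κ L1 = ⊤ := by
    refine top_le_iff.1 ?_
    rw [← hsup]
    refine sup_le ?_ ?_
    · intro v hv
      exact Subgroup.subset_closure ⟨(⟨0, hn0⟩, ⟨0, hn0⟩, v, 1), Or.inr ⟨v, hv, rfl⟩, by
        show κ ^ 0 * v = v
        rw [pow_zero, one_mul]⟩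
    · rw [Subgroup.zpowers_le]
      have h1 : w⁻¹ ∈ aL κ L1 :=
        Subgroup.subset_closure ⟨(⟨i₀, hi⟩, ⟨1, hn⟩, (κ * w)⁻¹, 1), Or.inl rfl, hkw⟩
      exact (aL κ L1).inv_mem_iff.1 h1
  have hL2 : aL κ L2 = ⊤ := by
    refine top_le_iff.1 ?_
    rw [← hL1]
    unfold aL
    refine Subgroup.closure_mono ?_
    rintro a ⟨s, hs, rfl⟩
    exact ⟨s, Or.inr hs, rfl⟩
  -- the conditions
  have iff1 : ∀ x : G × G, (∀ s ∈ L1,
      B.i (κ ^ (s.2.1 : ℕ) * s.2.2.1) * x.1 = x.1 * B.i (κ ^ (s.2.1 : ℕ) * s.2.2.1) ∧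
        x.2⁻¹ * B.i (κ ^ (s.2.1 : ℕ) * s.2.2.1) * x.2 =
          B.i (κ ^ (s.2.1 : ℕ) * s.2.2.1) * (x.1 ^ m) ^ (s.1 : ℕ)) ↔
      (B.i w * x.1 = x.1 * B.i w ∧ x.2⁻¹ * (B.i w)⁻¹ * x.2 = (B.i w)⁻¹ * (x.1 ^ m) ^ i₀) ∧
        x.1 ∈ B.C S ∧ x.2 ∈ B.C S := by
    intro x
    constructor
    · intro h
      have h1 := h (⟨i₀, hi⟩, ⟨1, hn⟩, (κ * w)⁻¹, 1) (Or.inl rfl)
      dsimp only at h1
      rw [hkw, map_inv] at h1
      refine ⟨⟨?_, h1.2⟩, ?_, ?_⟩
      · have h2 : Commute (B.i w)⁻¹ x.1 := h1.1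
        exact (Commute.inv_left_iff.1 h2).eq
      · rw [mem_C]
        intro v hv
        have h2 := h (⟨0, hn0⟩, ⟨0, hn0⟩, v, 1) (Or.inr ⟨v, hv, rfl⟩)
        dsimp only at h2
        rw [pow_zero, one_mul] at h2
        exact h2.1
      · rw [mem_C]
        intro v hv
        have h2 := h (⟨0, hn0⟩, ⟨0, hn0⟩, v, 1) (Or.inr ⟨v, hv, rfl⟩)
        dsimp only at h2
        rw [pow_zero, one_mul, pow_zero, mul_one] at h2
        have h3 := h2.2
        rw [mul_assoc, inv_mul_eq_iff_eq_mul] at h3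
        exact h3
    · rintro ⟨⟨h1, h2⟩, h3, h4⟩ s hs
      rcases hs with rfl | ⟨v, hv, rfl⟩
      · dsimp only
        rw [hkw, map_inv]
        exact ⟨(show Commute (B.i w) x.1 from h1).inv_left.eq, h2⟩
      · dsimp only
        rw [pow_zero, one_mul, pow_zero, mul_one]
        refine ⟨mem_C.1 h3 v hv, ?_⟩
        rw [mul_assoc, mem_C.1 h4 v hv, inv_mul_cancel_left]
  have iff2 : ∀ x : G × G, (∀ s ∈ L2,
      B.i (κ ^ (s.2.1 : ℕ) * s.2.2.1) * x.1 = x.1 * B.i (κ ^ (s.2.1 : ℕ) * s.2.2.1) ∧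
        x.2⁻¹ * B.i (κ ^ (s.2.1 : ℕ) * s.2.2.1) * x.2 =
          B.i (κ ^ (s.2.1 : ℕ) * s.2.2.1) * (x.1 ^ m) ^ (s.1 : ℕ)) ↔
      ((B.i w * x.1 = x.1 * B.i w ∧ x.2⁻¹ * (B.i w)⁻¹ * x.2 = (B.i w)⁻¹ * (x.1 ^ m) ^ i₀) ∧
        x.1 ∈ B.C S ∧ x.2 ∈ B.C S) ∧ (x.1 ^ m) ^ i₀ = 1 := by
    intro x
    rw [← iff1 x]
    constructor
    · intro h
      refine ⟨fun s hs => h s (Or.inr hs), ?_⟩
      have h1 := h (⟨0, hn0⟩, ⟨1, hn⟩, (κ * w)⁻¹, 1) (Or.inl rfl)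
      have h2 := h (⟨i₀, hi⟩, ⟨1, hn⟩, (κ * w)⁻¹, 1) (Or.inr (Or.inl rfl))
      dsimp only at h1 h2
      rw [pow_zero, mul_one] at h1
      have h3 := h1.2.symm.trans h2.2
      exact (mul_left_cancel ((mul_one _).trans h3)).symm
    · rintro ⟨h1, h2⟩ s hs
      rcases hs with rfl | hs
      · have h3 := h1 (⟨i₀, hi⟩, ⟨1, hn⟩, (κ * w)⁻¹, 1) (Or.inl rfl)
        dsimp only at h3 ⊢
        rw [h2] at h3
        rw [pow_zero]
        exact h3
      · exact h1 s hs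
  have k1 := hHK L1 hL1
  have k2 := hHK L2 hL2
  simp only [iff1] at k1
  simp only [iff2] at k2
  -- the elements with `(x ^ m) ^ ℓ ≠ 1`
  have htop : (⊤ : Subgroup V₀) ⊔ Subgroup.zpowers κ = ⊤ := top_sup_eq _
  have hcw : ∀ v ∈ B.C ⊤, Commute (B.i w) v := fun v hv => mem_C.1 hv w (Subgroup.mem_top w)
  have h0 := kill hkc fib hM hℓ hF hB.toSb hPE ⊤ κ htop
    (fun z y => if (y ∈ B.C S ∧ y⁻¹ * (B.i w)⁻¹ * y = (B.i w)⁻¹ * z ^ i₀) ∧ z ^ i₀ ≠ 1 ∧
      z ^ ℓ ≠ 1 then 1 else 0)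
    (by
      intro z y v hv
      have h5 : v ∈ B.C S := C_anti B le_top hv
      have h6 : y * v⁻¹ ∈ B.C S ↔ y ∈ B.C S :=
        Subgroup.mul_mem_cancel_right _ ((B.C S).inv_mem h5)
      simp only [inv_a (hcw v hv), inv_b, h6, ne_eq])
    (by
      intro z y v hv
      have h5 : v ∈ B.C S := C_anti B le_top hv
      have h6 : v * y ∈ B.C S ↔ y ∈ B.C S := Subgroup.mul_mem_cancel_left _ h5
      simp only [inv_c y (hcw v hv), h6])
    (by
      intro z y hΦ hzEl hzC hzF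
      have hcond : (y ∈ B.C S ∧ y⁻¹ * (B.i w)⁻¹ * y = (B.i w)⁻¹ * z ^ i₀) ∧ z ^ i₀ ≠ 1 ∧
          z ^ ℓ ≠ 1 := by
        by_contra hc
        apply hΦ
        simp only [if_neg hc]
      obtain ⟨⟨c0, c1⟩, c2, c3⟩ := hcond
      constructor
      · refine gen_k hzF ((S : Set V₀) ∪ {w}) ?_ ?_
        · rw [Subgroup.closure_union, Subgroup.closure_eq, ← Subgroup.zpowers_eq_closure, hsup]
        · rintro q (hq | hq)
          · refine ⟨0, ?_⟩
            rw [zpow_zero, mul_one, ← mem_C.1 c0 q hq, mul_inv_cancel_right]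
          · rw [Set.mem_singleton_iff.1 hq]
            refine ⟨i₀, ?_⟩
            have hcm : Commute (B.i w) (y * z * y⁻¹) := mem_C.1 hzF w (Subgroup.mem_top w)
            rw [zpow_natCast]
            have e1 : y * B.i w * y⁻¹ = (y * z * y⁻¹) ^ i₀ * B.i w := by
              rw [conj_pw]
              exact g_aux c1
            rw [e1]
            exact ((hcm.pow_right i₀).eq).symm
      · intro σ hσ t ht htv g hg g' hg' v hy hzv
        apply c3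
        rw [← inv_b y z ℓ, hzv, inv_b, ← map_pow, hF.ex v, map_one])
  -- together
  have hsum : ∀ x : G × G, (if (B.i w * x.1 = x.1 * B.i w ∧
      x.2⁻¹ * (B.i w)⁻¹ * x.2 = (B.i w)⁻¹ * (x.1 ^ m) ^ i₀) ∧ x.1 ∈ B.C S ∧ x.2 ∈ B.C S
        then (1 : ℂ) else 0) =
      (if PI ℓ B m w i₀ x ∧ x.1 ∈ B.C S ∧ x.2 ∈ B.C S then 1 else 0) +
      ((if ((B.i w * x.1 = x.1 * B.i w ∧ x.2⁻¹ * (B.i w)⁻¹ * x.2 = (B.i w)⁻¹ * (x.1 ^ m) ^ i₀) ∧
        x.1 ∈ B.C S ∧ x.2 ∈ B.C S) ∧ (x.1 ^ m) ^ i₀ = 1 then 1 else 0) +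
      (if x.1 ∈ B.C ⊤ then (if (x.2 ∈ B.C S ∧ x.2⁻¹ * (B.i w)⁻¹ * x.2 =
        (B.i w)⁻¹ * (x.1 ^ m) ^ i₀) ∧ (x.1 ^ m) ^ i₀ ≠ 1 ∧ (x.1 ^ m) ^ ℓ ≠ 1 then 1 else 0)
          else 0)) := by
    intro x
    have e1 : x.1 ∈ B.C ⊤ ↔ x.1 ∈ B.C S ∧ B.i w * x.1 = x.1 * B.i w := by
      rw [← hsup, mem_C_sup, mem_C_gen]
    unfold PI
    simp only [e1]
    by_cases a1 : B.i w * x.1 = x.1 * B.i w <;>
    by_cases a2 : x.2⁻¹ * (B.i w)⁻¹ * x.2 = (B.i w)⁻¹ * (x.1 ^ m) ^ i₀ <;>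
    by_cases a3 : x.1 ∈ B.C S <;> by_cases a4 : x.2 ∈ B.C S <;>
    by_cases a5 : (x.1 ^ m) ^ i₀ = 1 <;> by_cases a6 : (x.1 ^ m) ^ ℓ = 1 <;>
    simp only [a1, a2, a3, a4, a5, a6, true_and, and_true, and_false, false_and, if_true, if_false,
      ne_eq, not_true_eq_false, not_false_eq_true, add_zero, zero_add]
  have hNw := (Nw_add B κ _ _).symm.trans (congrArg (Nw B κ) (funext fun x => (hsum x).symm))
  rw [Nw_add, h0, add_zero] at hNw
  have hfin := (RM M).sub_mem k1 k2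
  rw [← hNw, add_sub_cancel_right] at hfin
  exact hfin

omit [Finite V₀] [Fintype G] in
theorem cm_iff {a z x : G} (hc : Commute a z) :
    a * (z * x * z⁻¹) = z * x * z⁻¹ * a ↔ a * x = x * a := by
  constructor
  · intro h
    have h1 : Commute a (z * x * z⁻¹) := h
    have h2 := (hc.inv_right.mul_right h1).mul_right hc
    have h3 : z⁻¹ * (z * x * z⁻¹) * z = x := by group
    rw [h3] at h2
    exact h2.eq
  · intro h
    have h1 : Commute a x := h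
    exact ((hc.mul_right h1).mul_right hc.inv_right).eq

omit [Finite V₀] [Fintype G] in
theorem PI_conj (ℓ : ℕ) (B : Bk (FF M) V₀ G) (m : ℕ) (w : V₀) (i₀ : ℕ) {z : G}
    (hz : z ∈ B.C ⊤) (x : G × G) :
    PI ℓ B m w i₀ (z * x.1 * z⁻¹, z * x.2 * z⁻¹) ↔ PI ℓ B m w i₀ x := by
  have hc : Commute (B.i w) z := mem_C.1 hz w (Subgroup.mem_top w)
  have e1 : (z * x.1 * z⁻¹) ^ m = z * x.1 ^ m * z⁻¹ := conj_pw _ _ _
  have e2 : (z * x.2 * z⁻¹)⁻¹ * (B.i w)⁻¹ * (z * x.2 * z⁻¹) =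
      (x.2 * z⁻¹)⁻¹ * (B.i w)⁻¹ * (x.2 * z⁻¹) := by
    have e3 : z * x.2 * z⁻¹ = z * (x.2 * z⁻¹) := mul_assoc _ _ _
    rw [e3]
    exact inv_c _ hc
  unfold PI
  simp only [e1, e2, cm_iff hc, inv_a hc, inv_b, ne_eq]

open Classical in
theorem nI_int (hkc : HkcStmt) (fib : FibStmt) (w2b : W2bStmt) (cnd : CndStmt) (rwd : RwdStmt)
    {ℓ : ℕ} [Fact ℓ.Prime] (hM : (ℓ : integralClosure ℤ ℂ) ∈ M) (hℓ : ℓ ≠ 2)
    {E₀ : Subgroup (MulAut V₀)} (hF : Fq ℓ V₀ E₀) {B : Bk (FF M) V₀ G} (hB : Sd ℓ M E₀ B)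
    {n m : ℕ} (hPE : PE ℓ n m G) (hn : 1 < n) {κ w : V₀} (hw1 : w ≠ 1) {i₀ : ℕ} (hi : i₀ < n) :
    nI ℓ B m κ w i₀ ∈ RM M := by
  have hp : ℓ.Prime := Fact.out
  obtain ⟨-, -, -, -, r5⟩ := rwd ℓ V₀ E₀ hF
  have iV : Fintype V₀ := Fintype.ofFinite V₀
  let fr : G × G → Prop := fun x =>
    ∀ v : V₀, B.i v * x.1 = x.1 * B.i v → B.i v * x.2 = x.2 * B.i v → v = 1
  let LL : Finset (Subgroup V₀) := Finset.univ.filter (fun S => Nat.card S = ℓ ∧ w ∉ S)
  have hdec : ∀ x : G × G, (if PI ℓ B m w i₀ x then (1 : ℂ) else 0) =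
      (if PI ℓ B m w i₀ x ∧ fr x then 1 else 0) +
      ∑ S ∈ LL, (if PI ℓ B m w i₀ x ∧ x.1 ∈ B.C S ∧ x.2 ∈ B.C S then 1 else 0) := by
    intro x
    by_cases hPI : PI ℓ B m w i₀ x
    swap
    · rw [if_neg hPI, if_neg (fun h => hPI h.1), zero_add, Finset.sum_eq_zero]
      intro S _
      rw [if_neg (fun h => hPI h.1)]
    rw [if_pos hPI]
    let St : Subgroup V₀ := (Subgroup.centralizer ({x.1, x.2} : Set G)).comap B.i
    have hSt : ∀ v : V₀, v ∈ St ↔ B.i v * x.1 = x.1 * B.i v ∧ B.i v * x.2 = x.2 * B.i v := by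
      intro v
      show B.i v ∈ Subgroup.centralizer ({x.1, x.2} : Set G) ↔ _
      rw [Subgroup.mem_centralizer_iff]
      constructor
      · intro h
        exact ⟨(h x.1 (Or.inl rfl)).symm, (h x.2 (Or.inr rfl)).symm⟩
      · rintro ⟨h1, h2⟩ g (rfl | rfl)
        · exact h1.symm
        · exact h2.symm
    have hle : ∀ S : Subgroup V₀, x.1 ∈ B.C S → x.2 ∈ B.C S → S ≤ St := by
      intro S h1 h2 v hv
      exact (hSt v).2 ⟨mem_C.1 h1 v hv, mem_C.1 h2 v hv⟩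
    have hw : w ∉ St := by
      intro h
      obtain ⟨-, h2⟩ := (hSt w).1 h
      obtain ⟨-, h3, h4, -⟩ := hPI
      apply h4
      have h6 : Commute (B.i w) x.2 := h2
      rw [mul_assoc, h6.inv_left.eq, inv_mul_cancel_left] at h3
      exact mul_left_cancel (h3.symm.trans (mul_one _).symm)
    by_cases hf : fr x
    · rw [if_pos ⟨hPI, hf⟩, Finset.sum_eq_zero, add_zero]
      intro S hS
      rw [if_neg]
      rintro ⟨-, h1, h2⟩
      have h3 : S = ⊥ := by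
        rw [Subgroup.eq_bot_iff_forall]
        intro v hv
        obtain ⟨h4, h5⟩ := (hSt v).1 (hle S h1 h2 hv)
        exact hf v h4 h5
      have h4 : Nat.card S = ℓ := (Finset.mem_filter.1 hS).2.1
      rw [h3, Subgroup.card_bot] at h4
      exact hp.one_lt.ne h4
    · rw [if_neg (fun h => hf h.2), zero_add]
      have hne : St ≠ ⊥ := by
        intro h
        apply hf
        intro v h1 h2
        have h3 : v ∈ St := (hSt v).2 ⟨h1, h2⟩
        rw [h] at h3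
        exact Subgroup.mem_bot.1 h3
      have hcd : Nat.card St = ℓ := by
        rcases r5 St hne with h | h
        · exact absurd (h ▸ Subgroup.mem_top w) hw
        · exact h
      rw [Finset.sum_eq_single St]
      · rw [if_pos]
        refine ⟨hPI, mem_C.2 fun v hv => ((hSt v).1 hv).1, mem_C.2 fun v hv => ((hSt v).1 hv).2⟩
      · intro S hS hne2
        rw [if_neg]
        rintro ⟨-, h1, h2⟩
        apply hne2
        have h4 : Nat.card S = ℓ := (Finset.mem_filter.1 hS).2.1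
        exact Subgroup.eq_of_le_of_card_ge (hle S h1 h2) (by rw [hcd, h4])
      · intro h
        exact absurd (Finset.mem_filter.2 ⟨Finset.mem_univ _, hcd, hw⟩) h
  have hNw : nI ℓ B m κ w i₀ = Nw B κ (fun x => if PI ℓ B m w i₀ x ∧ fr x then 1 else 0) +
      ∑ S ∈ LL, Nw B κ (fun x => if PI ℓ B m w i₀ x ∧ x.1 ∈ B.C S ∧ x.2 ∈ B.C S then 1 else 0) := by
    rw [nI_eq, ← Nw_sum, ← Nw_add]
    congr 1
    funext x
    exact hdec x
  rw [hNw]
  refine (RM M).add_mem ?_ (Subring.sum_mem _ fun S hS => ?_)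
  · have q1 : ∀ z ∈ B.C ⊤, ∀ x : G × G, (PI ℓ B m w i₀ (z * x.1 * z⁻¹, z * x.2 * z⁻¹) ∧
        fr (z * x.1 * z⁻¹, z * x.2 * z⁻¹)) ↔ (PI ℓ B m w i₀ x ∧ fr x) := by
      intro z hz x
      rw [PI_conj ℓ B m w i₀ hz x]
      have h1 : ∀ v : V₀, Commute (B.i v) z := fun v => mem_C.1 hz v (Subgroup.mem_top v)
      have h2 : fr (z * x.1 * z⁻¹, z * x.2 * z⁻¹) ↔ fr x := by
        show (∀ v : V₀, B.i v * (z * x.1 * z⁻¹) = z * x.1 * z⁻¹ * B.i v →
          B.i v * (z * x.2 * z⁻¹) = z * x.2 * z⁻¹ * B.i v → v = 1) ↔ _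
        simp only [cm_iff (h1 _)]
        rfl
      rw [h2]
    have key := free_part cnd hM hℓ hF hB κ w hw1 (fun x => PI ℓ B m w i₀ x ∧ fr x) q1
      (fun x h => h.2)
    refine Eq.subst (motive := fun q => Nw B κ q ∈ RM M) ?_ key
    funext x
    by_cases h : PI ℓ B m w i₀ x ∧ fr x
    · rw [if_pos h, if_pos h]
    · rw [if_neg h, if_neg h]
  · obtain ⟨-, h1, h2⟩ := Finset.mem_filter.1 hS
    exact line_part hkc fib w2b rwd hM hℓ hF hB hPE hn h1 h2 hi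

end bk

theorem tfn (hkc : HkcStmt) (fib : FibStmt) (w2b : W2bStmt) (cnd : CndStmt) (rwd : RwdStmt) :
    TfnStmt := by
  intro ℓ _ M _ hM hℓ V₀ G _ _ _ _ E₀ hF B hB n m r hr hn hPE κ w hw1 hκ
  have iG : Fintype G := Fintype.ofFinite G
  have hp : ℓ.Prime := Fact.out
  refine ⟨?_, ?_, ?_⟩
  · intro i₀
    have h1 : nI ℓ B m κ w (i₀ % ℓ) = nI ℓ B m κ w i₀ := by
      have h2 : ¬ ℓ ∣ 1 := hp.one_lt.ne' ∘ Nat.dvd_one.1
      have h3 : i₀ % ℓ ≡ 1 * i₀ [MOD ℓ] := by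
        rw [one_mul]
        exact Nat.mod_modEq i₀ ℓ
      have h4 := nI_pow hp B m κ (hF.ex w) h2 h3
      rw [pow_one] at h4
      exact h4
    rw [← h1]
    have h5 : ℓ ≤ n := by
      rw [hn]
      exact Nat.le_self_pow hr.ne' ℓ
    exact nI_int hkc fib w2b cnd rwd hM hℓ hF hB hPE (lt_of_lt_of_le hp.one_lt h5) hw1
      (lt_of_lt_of_le (Nat.mod_lt _ hp.pos) h5)
  · intro j i₀ i₁ hj hi
    exact nI_pow hp B m κ (hF.ex w) hj hi
  · intro htriv i₀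
    exact nI_zero hkc fib rwd hM hℓ hF hB.toSb hPE hw1 hκ htriv i₀

end Pool.Agent.PP.SD.H41
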